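import Mathlib

/-!
# Subnormalizers and characters: definitions
-/

open Subgroup

namespace Pool.Agent.MP3a6623

section Defs

variable {G : Type} [Group G]

/-- `χ` is the character of an irreducible complex representation of `G`. -/
def IsIrrChar (χ : G → ℂ) : Prop :=
  ∃ (n : ℕ) (ρ : Representation ℂ G (Fin n → ℂ)), ρ.IsIrreducible ∧ ρ.character = χ

/-- `Irr^x(G)`: the irreducible characters of `G` that do not vanish at `x`. -/
def IrrAt (x : G) : Set (G → ℂ) := {χ | IsIrrChar χ ∧ χ x ≠ 0}

/-- The subnormalizer set `S_G(x)`: the elements `g` such that `⟨x⟩` is subnormal in `⟨x, g⟩`. -/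
def subnormalizerSet (x : G) : Set G :=
  {g | ((zpowers x).subgroupOf (closure {x, g})).IsSubnormal}

/-- The subnormalizer `Sub_G(x)`: the subgroup generated by `S_G(x)`. -/
def subnormalizer (x : G) : Subgroup G := closure (subnormalizerSet x)

lemma mem_set_of_commute {x g : G} (h : g * x = x * g) : g ∈ subnormalizerSet x := by
  have hcl : ∀ k ∈ closure {x, g}, k * x = x * k := by
    intro k hk
    induction hk using closure_induction with
    | mem y hy =>
      rcases hy with rfl | hy
      · rfl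
      · rw [Set.mem_singleton_iff] at hy
        rw [hy]
        exact h
    | one => rw [one_mul, mul_one]
    | mul a b _ _ ha hb => rw [mul_assoc, hb, ← mul_assoc, ha, mul_assoc]
    | inv a _ ha =>
      have : a⁻¹ * (a * x) * a⁻¹ = a⁻¹ * (x * a) * a⁻¹ := by rw [ha]
      simp only [inv_mul_cancel_left, mul_assoc, mul_inv_cancel, mul_one] at this
      exact this.symm
  apply Normal.isSubnormal
  refine ⟨fun n hn k => ?_⟩
  rw [mem_subgroupOf] at hn ⊢
  obtain ⟨m, hm⟩ := mem_zpowers_iff.1 hn
  have hk := hcl k.1 k.2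
  have hcomm : Commute k.1 (n : G) := by
    rw [← hm]
    exact (show Commute k.1 x from hk).zpow_right m
  have : ((k * n * k⁻¹ : closure {x, g}) : G) = n := by
    show (k : G) * n * (k : G)⁻¹ = n
    rw [hcomm.eq, mul_inv_cancel_right]
  rw [this]
  exact hn

lemma self_mem (x : G) : x ∈ subnormalizer x :=
  subset_closure (mem_set_of_commute rfl)

/-- `x` as an element of `Sub_G(x)`. -/
def self (x : G) : subnormalizer x := ⟨x, self_mem x⟩

/-- The degrees `χ(1)` and `ψ(1)` have the same `p`-part. -/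
def SamePPart (p : ℕ) {H K : Type} [Group H] [Group K] (χ : H → ℂ) (ψ : K → ℂ) : Prop :=
  ∃ m n : ℕ, χ 1 = m ∧ ψ 1 = n ∧ p ^ padicValNat p m = p ^ padicValNat p n

/-- `f` restricts to a bijection from `Irr^x(G)` to `Irr^x(Sub_G(x))` that preserves the values at
`x` up to sign. -/
def IsSignBijection (x : G) (f : (G → ℂ) → (subnormalizer x → ℂ)) : Prop :=
  Set.BijOn f (IrrAt x) (IrrAt (self x)) ∧
    ∀ χ ∈ IrrAt x, f χ (self x) = χ x ∨ f χ (self x) = - χ x

/-- Property (SS) for `(G, y)` and the prime `p`. -/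
def SS (p : ℕ) (y : G) : Prop :=
  ∃ g : (G → ℂ) → (subnormalizer y → ℂ), IsSignBijection y g ∧
    ∀ χ ∈ IrrAt y, SamePPart p χ (g χ)

/-- `y` is the `p`-part of `x`: a power of `x` of `p`-power order such that `x y⁻¹` has order prime
to `p`. -/
def IsPPart (p : ℕ) (x y : G) : Prop :=
  y ∈ zpowers x ∧ (∃ k : ℕ, orderOf y = p ^ k) ∧ (orderOf (x * y⁻¹)).Coprime p

end Defs

end Pool.Agent.MP3a6623
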