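import Pool.Agent.Lib.MP_3a6623_al.Defs

/-!
# A counterexample to the subnormalizer conjecture for elements of mixed order

`G = (S₃ × C₂) ≀ C₂` (of order `288`) and `x = ((s,1),(r,1))` in the base group, with `s` a
transposition and `r` a 3-cycle.  The `2`-part of `x` is `((s,1),1)` and the `3`-part is
`(1,(r,1))`; the subnormalizers of both are the whole group, so that property (SS) holds trivially
for them.  The group `G` has the quotient `C₂ ≀ C₂`, dihedral of order `8`, in which `x` becomes
trivial; hence `G` has an irreducible character `χ` with `χ x = 2`.  But the subnormalizer of `x`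
is contained in `(⟨s⟩ × C₂) × (S₃ × C₂)`, and no irreducible character of it has value `±2` at `x`.
-/

open Subgroup

namespace Pool.Agent.MP3a6623

section General

variable {G : Type} [Group G]

/-- Restriction to a subgroup that is everything preserves irreducible characters. -/
lemma irr_restrict {H : Subgroup G} (hH : H = ⊤) {χ : G → ℂ} (h : IsIrrChar χ) :
    IsIrrChar (fun k : H => χ k) := by
  obtain ⟨n, ρ, hρ, rfl⟩ := h
  refine ⟨n, ρ.comp H.subtype, ?_, rfl⟩
  have hs : ∀ (S : Subrepresentation (ρ.comp H.subtype)) (g : G) (v : Fin n → ℂ),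
      v ∈ S.toSubmodule → ρ g v ∈ S.toSubmodule := by
    intro S g v hv
    exact S.apply_mem_toSubmodule ⟨g, hH ▸ mem_top g⟩ hv
  have : IsSimpleOrder (Subrepresentation ρ) := hρ
  have hne : (⊥ : Subrepresentation (ρ.comp H.subtype)) ≠ ⊤ := by
    intro h
    have h' : (⊥ : Subrepresentation ρ) ≠ ⊤ := bot_ne_top
    apply h'
    apply Subrepresentation.toSubmodule_injective
    exact congrArg (fun S : Subrepresentation (ρ.comp H.subtype) => S.toSubmodule) h
  exact { exists_pair_ne := ⟨_, _, hne⟩
          eq_bot_or_eq_top := by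
            intro S
            rcases eq_bot_or_eq_top (⟨S.toSubmodule, fun g v hv => hs S g v hv⟩ :
              Subrepresentation ρ) with h | h
            · left
              apply Subrepresentation.toSubmodule_injective
              exact congrArg (fun S : Subrepresentation ρ => S.toSubmodule) h
            · right
              apply Subrepresentation.toSubmodule_injective
              exact congrArg (fun S : Subrepresentation ρ => S.toSubmodule) h }

/-- Conversely, characters of a subgroup that is everything extend. -/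
lemma irr_extend {H : Subgroup G} (hH : H = ⊤) {ψ : H → ℂ} (h : IsIrrChar ψ) :
    IsIrrChar (fun g : G => ψ ⟨g, hH ▸ mem_top g⟩) := by
  obtain ⟨n, ρ, hρ, rfl⟩ := h
  let e : G →* H :=
    { toFun := fun g => ⟨g, hH ▸ mem_top g⟩
      map_one' := rfl
      map_mul' := fun _ _ => rfl }
  refine ⟨n, ρ.comp e, ?_, rfl⟩
  have : IsSimpleOrder (Subrepresentation ρ) := hρ
  have hs : ∀ (S : Subrepresentation (ρ.comp e)) (g : H) (v : Fin n → ℂ),
      v ∈ S.toSubmodule → ρ g v ∈ S.toSubmodule := by
    intro S g v hv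
    exact S.apply_mem_toSubmodule (g : G) hv
  have hne : (⊥ : Subrepresentation (ρ.comp e)) ≠ ⊤ := by
    intro h
    have h' : (⊥ : Subrepresentation ρ) ≠ ⊤ := bot_ne_top
    apply h'
    apply Subrepresentation.toSubmodule_injective
    exact congrArg (fun S : Subrepresentation (ρ.comp e) => S.toSubmodule) h
  exact { exists_pair_ne := ⟨_, _, hne⟩
          eq_bot_or_eq_top := by
            intro S
            rcases eq_bot_or_eq_top (⟨S.toSubmodule, fun g v hv => hs S g v hv⟩ :
              Subrepresentation ρ) with h | h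
            · left
              apply Subrepresentation.toSubmodule_injective
              exact congrArg (fun S : Subrepresentation ρ => S.toSubmodule) h
            · right
              apply Subrepresentation.toSubmodule_injective
              exact congrArg (fun S : Subrepresentation ρ => S.toSubmodule) h }

lemma irr_degree {χ : G → ℂ} (h : IsIrrChar χ) : ∃ m : ℕ, χ 1 = m := by
  obtain ⟨n, ρ, -, rfl⟩ := h
  exact ⟨_, Representation.char_one ρ⟩

/-- (SS) holds if the subnormalizer is the whole group. -/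
lemma ss_of_top (p : ℕ) (y : G) (h : subnormalizer y = ⊤) : SS p y := by
  refine ⟨fun χ k => χ k, ⟨⟨?_, ?_, ?_⟩, ?_⟩, ?_⟩
  · intro χ hχ
    exact ⟨irr_restrict h hχ.1, hχ.2⟩
  · intro χ _ χ' _ hχ
    funext g
    exact congrFun hχ (⟨g, h ▸ mem_top g⟩ : subnormalizer y)
  · intro ψ hψ
    exact ⟨fun g => ψ ⟨g, h ▸ mem_top g⟩, ⟨irr_extend h hψ.1, hψ.2⟩, rfl⟩
  · intro χ _
    exact Or.inl rfl
  · intro χ hχ
    obtain ⟨m, hm⟩ := irr_degree hχ.1
    exact ⟨m, m, hm, hm, rfl⟩

/-- An element of order dividing `3` inverted by an element of a subnormal subgroup lies in it. -/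
lemma mem_of_subnormal {K : Subgroup G} (hK : K.IsSubnormal) {u v : G} (hu : u ∈ K)
    (huv : u * v * u⁻¹ = v⁻¹) (hv : v ^ 3 = 1) : v ∈ K := by
  induction hK with
  | top => exact mem_top v
  | step H K h_le _ hN ih =>
    have hvK : v ∈ K := ih (h_le hu)
    have h1 : v * u * v⁻¹ ∈ H := by
      have := hN.conj_mem ⟨u, h_le hu⟩ (mem_subgroupOf.2 hu) ⟨v, hvK⟩
      exact mem_subgroupOf.1 this
    have h2 : v * u * v⁻¹ * u⁻¹ ∈ H := H.mul_mem h1 (H.inv_mem hu)
    have h3 : v * u * v⁻¹ * u⁻¹ = v⁻¹ := by
      have h4 : u * v⁻¹ * u⁻¹ = v := by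
        have := congrArg (fun t => t⁻¹) huv
        simpa [mul_assoc] using this
      calc v * u * v⁻¹ * u⁻¹ = v * (u * v⁻¹ * u⁻¹) := by group
        _ = v * v := by rw [h4]
        _ = v⁻¹ * v ^ 3 := by rw [pow_succ, pow_two]; group
        _ = v⁻¹ := by rw [hv, mul_one]
    rw [h3] at h2
    exact (inv_mem_iff).1 h2

/-- An element of `⟨x⟩` does not invert an element of order `3` of `⟨x, g⟩` if `g ∈ S_G(x)`. -/
lemma no_invert {x g : G} (hg : g ∈ subnormalizerSet x) {u v : G} (hu : u ∈ zpowers x)
    (hv : v ∈ closure {x, g}) (huv : u * v * u⁻¹ = v⁻¹) (hv3 : v ^ 3 = 1) : v = 1 := by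
  have hle : zpowers x ≤ closure {x, g} := by
    rw [zpowers_le]
    exact subset_closure (Or.inl rfl)
  have h1 : (⟨v, hv⟩ : closure {x, g}) ∈ (zpowers x).subgroupOf (closure {x, g}) := by
    refine mem_of_subnormal (u := ⟨u, hle hu⟩) hg (mem_subgroupOf.2 hu) ?_ ?_
    · exact Subtype.ext huv
    · exact Subtype.ext hv3
  have h2 : v ∈ zpowers x := mem_subgroupOf.1 h1
  obtain ⟨i, hi⟩ := mem_zpowers_iff.1 hu
  obtain ⟨j, hj⟩ := mem_zpowers_iff.1 h2
  have h3 : u * v = v * u := by
    rw [← hi, ← hj, ← zpow_add, ← zpow_add, add_comm]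
  rw [h3, mul_inv_cancel_right] at huv
  calc v = v ^ 3 * (v⁻¹ * v⁻¹) := by group
    _ = v⁻¹ * v := by rw [hv3, one_mul]; nth_rewrite 2 [← huv]; rfl
    _ = 1 := inv_mul_cancel v

end General

section Rep

variable {U V : Type} [Group U] [AddCommGroup V] [Module ℂ V] [FiniteDimensional ℂ V]
  {ρ : Representation ℂ U V}

lemma irr_cases (hρ : ρ.IsIrreducible) (S : Submodule ℂ V) (hS : ∀ g, ∀ w ∈ S, ρ g w ∈ S) :
    S = ⊥ ∨ S = ⊤ := by
  have : IsSimpleOrder (Subrepresentation ρ) := hρ
  rcases eq_bot_or_eq_top (⟨S, fun g w hw => hS g w hw⟩ : Subrepresentation ρ) with h | h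
  · left
    exact congrArg (fun S : Subrepresentation ρ => S.toSubmodule) h
  · right
    exact congrArg (fun S : Subrepresentation ρ => S.toSubmodule) h

lemma irr_nontrivial (hρ : ρ.IsIrreducible) : Nontrivial V := by
  by_contra h
  rw [not_nontrivial_iff_subsingleton] at h
  have : IsSimpleOrder (Subrepresentation ρ) := hρ
  have h' : (⊥ : Subrepresentation ρ) ≠ ⊤ := bot_ne_top
  apply h'
  apply Subrepresentation.toSubmodule_injective
  exact Subsingleton.elim _ _

/-- An operator of the group commuting with all others is a scalar. -/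
lemma scalar (hρ : ρ.IsIrreducible) (z : U) (hz : ∀ g w, ρ z (ρ g w) = ρ g (ρ z w)) :
    ∃ c : ℂ, ∀ w, ρ z w = c • w := by
  have := irr_nontrivial hρ
  obtain ⟨c, hc⟩ := Module.End.exists_eigenvalue (ρ z)
  refine ⟨c, ?_⟩
  have h := irr_cases hρ (Module.End.eigenspace (ρ z) c) (by
    intro g w hw
    rw [Module.End.mem_eigenspace_iff] at hw ⊢
    rw [hz, hw, map_smul])
  rcases h with h | h
  · exact absurd h hc
  · intro w
    have : w ∈ Module.End.eigenspace (ρ z) c := by rw [h]; trivial
    exact Module.End.mem_eigenspace_iff.1 this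

/-- The main representation-theoretic lemma. -/
lemma trace_ne (hρ : ρ.IsIrreducible) (z v : U) (hz : ∀ g, z * g = g * z) (hz2 : z * z = 1)
    (hv : v ^ 3 = 1) (hA : ∀ g h, ∃ i : ℕ, g * h = h * g * v ^ i)
    (hB : ∀ g, g * v = v * g ∨ g * v = v⁻¹ * g)
    (hE : ∀ g, g * v = v * g → ∃ i : ℕ, ∀ h, (g * v ^ i) * h = h * (g * v ^ i)) :
    ρ.character (z * v) ≠ 2 ∧ ρ.character (z * v) ≠ -2 := by
  have := irr_nontrivial hρ
  have hn0 : 0 < Module.finrank ℂ V := Module.finrank_pos
  obtain ⟨w0, hw0⟩ := exists_ne (0 : V)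
  -- `z` acts as a sign
  obtain ⟨c, hc⟩ := scalar hρ z (by
    intro g w
    rw [← Module.End.mul_apply, ← map_mul, hz, map_mul, Module.End.mul_apply])
  have hc2 : c = 1 ∨ c = -1 := by
    have h1 : ρ (z * z) w0 = w0 := by rw [hz2, map_one, Module.End.one_apply]
    rw [map_mul, Module.End.mul_apply, hc, hc, smul_smul] at h1
    have h2 : (c * c - 1) • w0 = 0 := by rw [sub_smul, h1, one_smul, sub_self]
    rcases smul_eq_zero.1 h2 with h3 | h3
    · have h4 : (c - 1) * (c + 1) = 0 := by linear_combination h3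
      rcases mul_eq_zero.1 h4 with h5 | h5
      · left; linear_combination h5
      · right; linear_combination h5
    · exact absurd h3 hw0
  have htr : ρ.character (z * v) = c * ρ.character v := by
    unfold Representation.character
    have : ρ (z * v) = c • ρ v := by
      ext w
      rw [map_mul, Module.End.mul_apply, hc]
      rfl
    rw [this, map_smul, smul_eq_mul]
  suffices hmain : ρ.character v ≠ 2 ∧ ρ.character v ≠ -2 by
    rw [htr]
    rcases hc2 with rfl | rfl
    · rw [one_mul]; exact hmain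
    · constructor
      · intro h
        apply hmain.2
        linear_combination -h
      · intro h
        apply hmain.1
        linear_combination -h
  by_cases hT : ∀ w, ρ v w = w
  · -- `v` acts trivially: the dimension is one
    have hTi : ∀ (i : ℕ) w, ρ (v ^ i) w = w := by
      intro i w
      induction i with
      | zero => rw [pow_zero, map_one, Module.End.one_apply]
      | succ i ih => rw [pow_succ, map_mul, Module.End.mul_apply, hT, ih]
    have hcomm : ∀ g h w, ρ g (ρ h w) = ρ h (ρ g w) := by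
      intro g h w
      obtain ⟨i, hi⟩ := hA g h
      rw [← Module.End.mul_apply, ← map_mul, hi, map_mul, Module.End.mul_apply, hTi, map_mul,
        Module.End.mul_apply]
    have hsp := irr_cases hρ (Submodule.span ℂ {w0}) (by
      intro g w hw
      obtain ⟨d, hd⟩ := scalar hρ g (fun h w => hcomm g h w)
      rw [hd]
      exact Submodule.smul_mem _ _ hw)
    have htop : Submodule.span ℂ {w0} = ⊤ := by
      rcases hsp with h | h
      · rw [Submodule.span_singleton_eq_bot] at h
        exact absurd h hw0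
      · exact h
    have hfr : Module.finrank ℂ V = 1 := by
      rw [← finrank_top, ← htop]
      exact finrank_span_singleton hw0
    have hch : ρ.character v = 1 := by
      unfold Representation.character
      have : ρ v = 1 := by
        ext w
        exact hT w
      rw [this, LinearMap.trace_one, hfr, Nat.cast_one]
    rw [hch]
    constructor <;> norm_num
  · -- `v` acts without fixed vectors
    have hker := irr_cases hρ (LinearMap.ker (ρ v - 1)) (by
      intro g w hw
      rw [LinearMap.mem_ker, LinearMap.sub_apply, Module.End.one_apply, sub_eq_zero] at hw ⊢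
      rcases hB g with h | h
      · rw [← Module.End.mul_apply, ← map_mul, ← h, map_mul, Module.End.mul_apply, hw]
      · have h1 : v * g = g * v⁻¹ := by
          calc v * g = v * (g * v) * v⁻¹ := by group
            _ = g * v⁻¹ := by rw [h]; group
        rw [← Module.End.mul_apply, ← map_mul, h1, map_mul, Module.End.mul_apply]
        congr 1
        have h2 : ρ (v⁻¹) (ρ v w) = w := by
          rw [← Module.End.mul_apply, ← map_mul, inv_mul_cancel, map_one, Module.End.one_apply]
        rw [hw] at h2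
        exact h2)
    have hbot : LinearMap.ker (ρ v - 1) = ⊥ := by
      rcases hker with h | h
      · exact h
      · exfalso
        apply hT
        intro w
        have : w ∈ LinearMap.ker (ρ v - 1) := by rw [h]; trivial
        rw [LinearMap.mem_ker, LinearMap.sub_apply, Module.End.one_apply, sub_eq_zero] at this
        exact this
    have hquad : ∀ w, ρ v (ρ v w) + ρ v w + w = 0 := by
      intro w
      have h3 : ρ v (ρ v (ρ v w)) = w := by
        have : ρ (v ^ 3) w = w := by rw [hv, map_one, Module.End.one_apply]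
        rw [pow_succ, pow_two, map_mul, map_mul] at this
        exact this
      have : ρ v (ρ v w) + ρ v w + w ∈ LinearMap.ker (ρ v - 1) := by
        rw [LinearMap.mem_ker, LinearMap.sub_apply, Module.End.one_apply, map_add, map_add, h3]
        abel
      rw [hbot] at this
      exact this
    -- an eigenvector of `v`
    obtain ⟨μ, hμ⟩ := Module.End.exists_eigenvalue (ρ v)
    obtain ⟨w, hw, hw0'⟩ := hμ.exists_hasEigenvector
    rw [Module.End.mem_eigenspace_iff] at hw
    have hμq : μ * μ + μ + 1 = 0 := by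
      have h1 := hquad w
      rw [hw, map_smul, hw, smul_smul] at h1
      have h2 : (μ * μ + μ + 1) • w = 0 := by rw [add_smul, add_smul, one_smul]; exact h1
      rcases smul_eq_zero.1 h2 with h | h
      · exact h
      · exact absurd h hw0'
    have hμ0 : μ ≠ 0 := by
      rintro rfl
      norm_num at hμq
    have hpow : ∀ i : ℕ, ρ (v ^ i) w = μ ^ i • w := by
      intro i
      induction i with
      | zero => rw [pow_zero, map_one, Module.End.one_apply, pow_zero, one_smul]
      | succ i ih => rw [pow_succ, map_mul, Module.End.mul_apply, hw, map_smul, ih, smul_smul,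
          pow_succ, mul_comm]
    have hC : ∀ g, g * v = v * g → ∃ d : ℂ, ρ g w = d • w := by
      intro g hg
      obtain ⟨i, hi⟩ := hE g hg
      obtain ⟨d, hd⟩ := scalar hρ (g * v ^ i) (by
        intro h w
        rw [← Module.End.mul_apply, ← map_mul, hi, map_mul, Module.End.mul_apply])
      have h1 := hd w
      rw [map_mul, Module.End.mul_apply, hpow, map_smul] at h1
      refine ⟨(μ ^ i)⁻¹ * d, ?_⟩
      rw [← smul_smul, ← h1, smul_smul, inv_mul_cancel₀ (pow_ne_zero i hμ0), one_smul]
    by_cases hinv : ∃ g0, g0 * v = v⁻¹ * g0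
    · obtain ⟨g0, hg0⟩ := hinv
      -- the trace
      have hconj : g0 * v * g0⁻¹ = v ^ 2 := by
        rw [hg0, mul_inv_cancel_right]
        calc v⁻¹ = v⁻¹ * 1 := (mul_one _).symm
          _ = v⁻¹ * v ^ 3 := by rw [hv]
          _ = v ^ 2 := by group
      have htr2 : ρ.character (v ^ 2) = ρ.character v := by
        rw [← hconj, Representation.char_conj]
      have hsum : ρ.character (v ^ 2) + ρ.character v + (Module.finrank ℂ V : ℂ) = 0 := by
        unfold Representation.character
        rw [← LinearMap.trace_one ℂ V, ← map_add, ← map_add]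
        have : ρ (v ^ 2) + ρ v + 1 = 0 := by
          ext w
          rw [pow_two, map_mul]
          exact hquad w
        rw [this, map_zero]
      rw [htr2] at hsum
      -- the dimension
      have hsp := irr_cases hρ (Submodule.span ℂ {w, ρ g0 w}) (by
        have hgen : ∀ g, ρ g w ∈ Submodule.span ℂ {w, ρ g0 w} ∧
            ρ g (ρ g0 w) ∈ Submodule.span ℂ {w, ρ g0 w} := by
          intro g
          have m1 : w ∈ Submodule.span ℂ {w, ρ g0 w} := Submodule.subset_span (Or.inl rfl)
          have m2 : ρ g0 w ∈ Submodule.span ℂ {w, ρ g0 w} := Submodule.subset_span (Or.inr rfl)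
          have hk : ∀ h, h * v = v⁻¹ * h → v * h = h * v⁻¹ := by
            intro h hh
            calc v * h = v * (h * v) * v⁻¹ := by group
              _ = v * (v⁻¹ * h) * v⁻¹ := by rw [hh]
              _ = h * v⁻¹ := by group
          have hg1 : g0⁻¹ * v⁻¹ = v * g0⁻¹ := by
            calc g0⁻¹ * v⁻¹ = g0⁻¹ * (v⁻¹ * g0) * g0⁻¹ := by group
              _ = g0⁻¹ * (g0 * v) * g0⁻¹ := by rw [hg0]
              _ = v * g0⁻¹ := by group
          rcases hB g with h | h
          · constructor
            · obtain ⟨d, hd⟩ := hC g h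
              rw [hd]
              exact Submodule.smul_mem _ _ m1
            · have h1 : (g0⁻¹ * g * g0) * v = v * (g0⁻¹ * g * g0) := by
                have h' : g * v⁻¹ = v⁻¹ * g := by
                  calc g * v⁻¹ = v⁻¹ * (v * g) * v⁻¹ := by group
                    _ = v⁻¹ * (g * v) * v⁻¹ := by rw [h]
                    _ = v⁻¹ * g := by group
                calc (g0⁻¹ * g * g0) * v = g0⁻¹ * g * (g0 * v) := by group
                  _ = g0⁻¹ * g * (v⁻¹ * g0) := by rw [hg0]
                  _ = g0⁻¹ * (g * v⁻¹) * g0 := by group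
                  _ = g0⁻¹ * (v⁻¹ * g) * g0 := by rw [h']
                  _ = (g0⁻¹ * v⁻¹) * g * g0 := by group
                  _ = (v * g0⁻¹) * g * g0 := by rw [hg1]
                  _ = v * (g0⁻¹ * g * g0) := by group
              obtain ⟨d, hd⟩ := hC _ h1
              have h2 : ρ g (ρ g0 w) = d • ρ g0 w := by
                rw [← map_smul, ← hd, ← Module.End.mul_apply, ← map_mul, ← Module.End.mul_apply,
                  ← map_mul]
                congr 2
                group
              rw [h2]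
              exact Submodule.smul_mem _ _ m2
          · constructor
            · have h1 : (g0⁻¹ * g) * v = v * (g0⁻¹ * g) := by
                calc (g0⁻¹ * g) * v = g0⁻¹ * (g * v) := by group
                  _ = g0⁻¹ * (v⁻¹ * g) := by rw [h]
                  _ = (g0⁻¹ * v⁻¹) * g := by group
                  _ = (v * g0⁻¹) * g := by rw [hg1]
                  _ = v * (g0⁻¹ * g) := by group
              obtain ⟨d, hd⟩ := hC _ h1
              have h2 : ρ g w = d • ρ g0 w := by
                rw [← map_smul, ← hd, ← Module.End.mul_apply, ← map_mul]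
                congr 2
                group
              rw [h2]
              exact Submodule.smul_mem _ _ m2
            · have h1 : (g * g0) * v = v * (g * g0) := by
                calc (g * g0) * v = g * (g0 * v) := by group
                  _ = g * (v⁻¹ * g0) := by rw [hg0]
                  _ = (g * v⁻¹) * g0 := by group
                  _ = (v * g) * g0 := by rw [hk g h]
                  _ = v * (g * g0) := by group
              obtain ⟨d, hd⟩ := hC _ h1
              have h2 : ρ g (ρ g0 w) = d • w := by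
                rw [← hd, ← Module.End.mul_apply, ← map_mul]
              rw [h2]
              exact Submodule.smul_mem _ _ m1
        intro g x hx
        induction hx using Submodule.span_induction with
        | mem x hx =>
          rcases hx with rfl | hx
          · exact (hgen g).1
          · rw [Set.mem_singleton_iff] at hx
            rw [hx]
            exact (hgen g).2
        | zero => rw [map_zero]; exact Submodule.zero_mem _
        | add x y _ _ hx hy => rw [map_add]; exact Submodule.add_mem _ hx hy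
        | smul a x _ hx => rw [map_smul]; exact Submodule.smul_mem _ _ hx)
      have htop : Submodule.span ℂ {w, ρ g0 w} = ⊤ := by
        rcases hsp with h | h
        · exfalso
          have : w ∈ Submodule.span ℂ {w, ρ g0 w} := Submodule.subset_span (Or.inl rfl)
          rw [h] at this
          exact hw0' this
        · exact h
      have hfr : Module.finrank ℂ V ≤ 2 := by
        classical
        rw [← finrank_top, ← htop]
        have h1 := finrank_span_finset_le_card (R := ℂ) ({w, ρ g0 w} : Finset V)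
        rw [Finset.coe_insert, Finset.coe_singleton] at h1
        exact h1.trans Finset.card_le_two
      constructor
      · intro h
        rw [h] at hsum
        have h1 : ((Module.finrank ℂ V + 4 : ℕ) : ℂ) = 0 := by
          push_cast
          linear_combination hsum
        have h2 : Module.finrank ℂ V + 4 = 0 := by exact_mod_cast h1
        omega
      · intro h
        rw [h] at hsum
        have h1 : ((Module.finrank ℂ V : ℕ) : ℂ) = ((4 : ℕ) : ℂ) := by
          push_cast
          linear_combination hsum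
        have h2 : Module.finrank ℂ V = 4 := by exact_mod_cast h1
        omega
    · -- everything commutes with `v`
      have hall : ∀ g, g * v = v * g := by
        intro g
        rcases hB g with h | h
        · exact h
        · exact absurd ⟨g, h⟩ hinv
      have hsp := irr_cases hρ (Submodule.span ℂ {w}) (by
        intro g x hx
        obtain ⟨d, hd⟩ := hC g (hall g)
        rw [Submodule.mem_span_singleton] at hx ⊢
        obtain ⟨a, rfl⟩ := hx
        exact ⟨a * d, by rw [map_smul, hd, smul_smul]⟩)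
      have htop : Submodule.span ℂ {w} = ⊤ := by
        rcases hsp with h | h
        · rw [Submodule.span_singleton_eq_bot] at h
          exact absurd h hw0'
        · exact h
      have hfr : Module.finrank ℂ V = 1 := by
        rw [← finrank_top, ← htop]
        exact finrank_span_singleton hw0'
      have hch : ρ.character v = μ := by
        unfold Representation.character
        have : ρ v = μ • (1 : Module.End ℂ V) := by
          ext y
          have hy : y ∈ Submodule.span ℂ {w} := by rw [htop]; trivial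
          obtain ⟨a, rfl⟩ := Submodule.mem_span_singleton.1 hy
          rw [map_smul, hw, LinearMap.smul_apply, Module.End.one_apply, smul_comm]
        rw [this, map_smul, LinearMap.trace_one, hfr, Nat.cast_one, smul_eq_mul, mul_one]
      rw [hch]
      constructor
      · rintro rfl
        norm_num at hμq
      · rintro rfl
        norm_num at hμq

end Rep

section SubnormalLemmas

variable {G : Type} [Group G]

/-- If `σ² = 1` and `y` commutes with `σ y σ⁻¹`, then `⟨y⟩` is subnormal in `⟨y, σ⟩`. -/
lemma mem_set_of_swap {y σ : G} (hσ : σ * σ = 1) (hc : (σ * y * σ⁻¹) * y = y * (σ * y * σ⁻¹)) :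
    σ ∈ subnormalizerSet y := by
  have hσi : σ⁻¹ = σ := inv_eq_of_mul_eq_one_left hσ
  have hyK : y ∈ closure {y, σ * y * σ⁻¹} := subset_closure (Or.inl rfl)
  have hy'K : σ * y * σ⁻¹ ∈ closure {y, σ * y * σ⁻¹} := subset_closure (Or.inr rfl)
  -- `closure {y, y'}` is commutative with `y`
  have hcl : ∀ k ∈ closure {y, σ * y * σ⁻¹}, k * y = y * k := by
    intro k hk
    induction hk using closure_induction with
    | mem z hz =>
      rcases hz with rfl | hz
      · rfl
      · rw [Set.mem_singleton_iff] at hz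
        rw [hz]
        exact hc
    | one => rw [one_mul, mul_one]
    | mul a b _ _ ha hb => rw [mul_assoc, hb, ← mul_assoc, ha, mul_assoc]
    | inv a _ ha =>
      have : a⁻¹ * (a * y) * a⁻¹ = a⁻¹ * (y * a) * a⁻¹ := by rw [ha]
      simp only [inv_mul_cancel_left, mul_assoc, mul_inv_cancel, mul_one] at this
      exact this.symm
  -- conjugation by `σ` preserves it
  have hconj : ∀ k ∈ closure {y, σ * y * σ⁻¹}, σ * k * σ⁻¹ ∈ closure {y, σ * y * σ⁻¹} := by
    intro k hk
    induction hk using closure_induction with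
    | mem z hz =>
      rcases hz with rfl | hz
      · exact hy'K
      · rw [Set.mem_singleton_iff] at hz
        rw [hz]
        have : σ * (σ * y * σ⁻¹) * σ⁻¹ = y := by
          calc σ * (σ * y * σ⁻¹) * σ⁻¹ = (σ * σ) * y * (σ * σ)⁻¹ := by group
            _ = y := by rw [hσ, one_mul, inv_one, mul_one]
        rw [this]
        exact hyK
    | one => rw [mul_one, mul_inv_cancel]; exact one_mem _
    | mul a b _ _ ha hb =>
      have : σ * (a * b) * σ⁻¹ = (σ * a * σ⁻¹) * (σ * b * σ⁻¹) := by group
      rw [this]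
      exact mul_mem ha hb
    | inv a _ ha =>
      have : σ * a⁻¹ * σ⁻¹ = (σ * a * σ⁻¹)⁻¹ := by group
      rw [this]
      exact inv_mem ha
  have hσn : σ ∈ normalizer (closure {y, σ * y * σ⁻¹} : Set G) := by
    rw [mem_normalizer_iff]
    intro h
    constructor
    · exact hconj h
    · intro h'
      have h2 := hconj _ h'
      have : σ * (σ * h * σ⁻¹) * σ⁻¹ = h := by
        calc σ * (σ * h * σ⁻¹) * σ⁻¹ = (σ * σ) * h * (σ * σ)⁻¹ := by group
          _ = h := by rw [hσ, one_mul, inv_one, mul_one]
      rw [this] at h2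
      exact h2
  have hnorm : closure {y, σ} ≤ normalizer (closure {y, σ * y * σ⁻¹} : Set G) := by
    rw [closure_le]
    rintro z (rfl | hz)
    · exact le_normalizer hyK
    · rw [Set.mem_singleton_iff] at hz
      rw [hz]
      exact hσn
  refine IsSubnormal.step _ ((closure {y, σ * y * σ⁻¹}).subgroupOf (closure {y, σ})) ?_ ?_ ?_
  · intro k hk
    rw [mem_subgroupOf] at hk ⊢
    exact (zpowers_le.2 hyK) hk
  · apply Normal.isSubnormal
    exact normal_subgroupOf_of_le_normalizer hnorm
  · refine ⟨fun n hn k => ?_⟩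
    rw [mem_subgroupOf] at hn ⊢
    rw [mem_subgroupOf] at hn ⊢
    obtain ⟨m, hm⟩ := mem_zpowers_iff.1 hn
    have hk := hcl _ (mem_subgroupOf.1 k.2)
    have hcomm : Commute ((k : closure {y, σ}) : G) ((n : closure {y, σ}) : G) := by
      rw [← hm]
      exact (show Commute ((k : closure {y, σ}) : G) y from hk).zpow_right m
    have : (((k * n * k⁻¹ : (closure {y, σ * y * σ⁻¹}).subgroupOf (closure {y, σ})) :
        closure {y, σ}) : G) = ((n : closure {y, σ}) : G) := by
      show ((k : closure {y, σ}) : G) * ((n : closure {y, σ}) : G) *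
        ((k : closure {y, σ}) : G)⁻¹ = ((n : closure {y, σ}) : G)
      rw [hcomm.eq, mul_inv_cancel_right]
    rw [this]
    exact hn

end SubnormalLemmas

section Concrete

/-- `S₃ × C₂`. -/
abbrev R : Type := Equiv.Perm (Fin 3) × ℤˣ

/-- The action of `C₂` on `R × R` by swapping the factors. -/
def swapHom : ℤˣ →* MulAut (R × R) where
  toFun u := if u = 1 then 1 else MulEquiv.prodComm
  map_one' := if_pos rfl
  map_mul' := by
    intro u v
    rcases Int.units_eq_one_or u with rfl | rfl <;> rcases Int.units_eq_one_or v with rfl | rfl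
    · rw [if_pos rfl, mul_one, if_pos rfl, mul_one]
    · rw [if_pos rfl, one_mul, one_mul]
    · rw [mul_one, if_pos (rfl : (1 : ℤˣ) = 1), mul_one]
    · rw [if_pos (by decide), if_neg (by decide)]
      ext p <;> rfl

/-- `G = (S₃ × C₂) ≀ C₂`. -/
abbrev GG : Type := (R × R) ⋊[swapHom] ℤˣ

/-- A transposition. -/
def sP : Equiv.Perm (Fin 3) := Equiv.swap 0 1

/-- A 3-cycle. -/
def rP : Equiv.Perm (Fin 3) := finRotate 3

/-- The element `(s, 1)` of `R`. -/
def aR : R := (sP, 1)

/-- The element `(r, 1)` of `R`. -/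
def bR : R := (rP, 1)

/-- The element `x = ((s,1),(r,1))` of `G`. -/
def xx : GG := SemidirectProduct.inl (aR, bR)

/-- The swap. -/
def sw : GG := SemidirectProduct.inr (-1)

lemma card_GG : Nat.card GG = 288 := by
  rw [Nat.card_congr (SemidirectProduct.equivProd (φ := swapHom)), Nat.card_eq_fintype_card]
  decide +kernel

lemma p1 : ∀ c e : Equiv.Perm (Fin 3), c * sP = sP * c → e * sP = sP * e → c * e = e * c := by
  decide +kernel

lemma p2 : ∀ d e : Equiv.Perm (Fin 3), ∃ i : Fin 3, d * e = e * d * rP ^ (i : ℕ) := by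
  decide +kernel

lemma p3 : ∀ d : Equiv.Perm (Fin 3), d * rP = rP * d ∨ d * rP = rP⁻¹ * d := by
  decide +kernel

lemma p4 : ∀ d : Equiv.Perm (Fin 3), d * rP = rP * d → ∃ i : Fin 3, d * rP ^ (i : ℕ) = 1 := by
  decide +kernel

lemma p5 : ∀ c : Equiv.Perm (Fin 3), c * sP ≠ sP * c → (sP * (c * sP * c⁻¹)) ^ 3 = 1 ∧
    sP * (sP * (c * sP * c⁻¹)) * sP⁻¹ = (sP * (c * sP * c⁻¹))⁻¹ ∧ sP * (c * sP * c⁻¹) ≠ 1 := by
  decide +kernel

lemma p6 : ∀ c : Equiv.Perm (Fin 3), (c * rP * c⁻¹) ^ 3 = 1 ∧
    sP * (c * rP * c⁻¹) * sP⁻¹ = (c * rP * c⁻¹)⁻¹ ∧ c * rP * c⁻¹ ≠ 1 := by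
  decide +kernel

lemma sP2 : sP ^ 2 = 1 := by decide +kernel
lemma rP3 : rP ^ 3 = 1 := by decide +kernel
lemma sP_ne : sP ≠ 1 := by decide +kernel
lemma rP_ne : rP ≠ 1 := by decide +kernel

lemma swap_apply (p : R × R) : swapHom (-1) p = (p.2, p.1) := rfl

lemma sw_conj (c d : R) : sw * (SemidirectProduct.inl (c, d) : GG) * sw⁻¹ =
    SemidirectProduct.inl (d, c) := by
  have h := SemidirectProduct.inl_aut (φ := swapHom) (-1) (c, d)
  rw [swap_apply] at h
  exact h.symm

lemma sw_sq : sw * sw = 1 := by
  unfold sw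
  rw [← map_mul]
  have : (-1 : ℤˣ) * (-1) = 1 := by decide
  rw [this, map_one]

/-- Everything is generated by the swap and the elements `(1, d)`. -/
lemma gen_right (H : Subgroup GG) (h1 : sw ∈ H)
    (h2 : ∀ d : R, (SemidirectProduct.inl (1, d) : GG) ∈ H) : H = ⊤ := by
  rw [eq_top_iff]
  rintro g -
  have hinl : ∀ c d : R, (SemidirectProduct.inl (c, d) : GG) ∈ H := by
    intro c d
    have h3 : (SemidirectProduct.inl (c, d) : GG) =
        (sw * SemidirectProduct.inl (1, c) * sw⁻¹) * SemidirectProduct.inl (1, d) := by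
      rw [sw_conj, ← map_mul]
      congr 1
      exact Prod.ext (mul_one c).symm (one_mul d).symm
    rw [h3]
    exact H.mul_mem (H.mul_mem (H.mul_mem h1 (h2 c)) (H.inv_mem h1)) (h2 d)
  have hg : g = SemidirectProduct.inl g.left * SemidirectProduct.inr g.right :=
    (SemidirectProduct.inl_left_mul_inr_right g).symm
  rw [hg]
  apply H.mul_mem (hinl g.left.1 g.left.2)
  rcases Int.units_eq_one_or g.right with h | h
  · rw [h, map_one]
    exact H.one_mem
  · rw [h]
    exact h1

lemma sub_left (a : R) : subnormalizer (SemidirectProduct.inl (a, 1) : GG) = ⊤ := by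
  apply gen_right
  · apply Subgroup.subset_closure
    apply mem_set_of_swap sw_sq
    rw [sw_conj, ← map_mul, ← map_mul]
    congr 1
    exact Prod.ext ((one_mul a).trans (mul_one a).symm) ((mul_one a).trans (one_mul a).symm)
  · intro d
    apply Subgroup.subset_closure
    apply mem_set_of_commute
    rw [← map_mul, ← map_mul]
    congr 1
    exact Prod.ext ((one_mul a).trans (mul_one a).symm) ((mul_one d).trans (one_mul d).symm)

lemma sub_right (b : R) : subnormalizer (SemidirectProduct.inl (1, b) : GG) = ⊤ := by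
  have hsw : sw ∈ subnormalizer (SemidirectProduct.inl (1, b) : GG) := by
    apply Subgroup.subset_closure
    apply mem_set_of_swap sw_sq
    rw [sw_conj, ← map_mul, ← map_mul]
    congr 1
    exact Prod.ext ((mul_one b).trans (one_mul b).symm) ((one_mul b).trans (mul_one b).symm)
  apply gen_right _ hsw
  intro d
  have h1 : (SemidirectProduct.inl (d, 1) : GG) ∈
      subnormalizer (SemidirectProduct.inl (1, b) : GG) := by
    apply Subgroup.subset_closure
    apply mem_set_of_commute
    rw [← map_mul, ← map_mul]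
    congr 1
    exact Prod.ext ((mul_one d).trans (one_mul d).symm) ((one_mul b).trans (mul_one b).symm)
  have h2 : (SemidirectProduct.inl (1, d) : GG) = sw * SemidirectProduct.inl (d, 1) * sw⁻¹ := by
    rw [sw_conj]
  rw [h2]
  exact mul_mem (mul_mem hsw h1) (inv_mem hsw)

lemma order_aR : orderOf aR = 2 := by
  apply orderOf_eq_prime
  · exact Prod.ext sP2 (one_pow _)
  · intro h
    exact sP_ne (congrArg Prod.fst h)

lemma order_bR : orderOf bR = 3 := by
  apply orderOf_eq_prime
  · exact Prod.ext rP3 (one_pow _)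
  · intro h
    exact rP_ne (congrArg Prod.fst h)

lemma order_xx : orderOf xx = 6 := by
  unfold xx
  rw [orderOf_injective _ SemidirectProduct.inl_injective, Prod.orderOf_mk, order_aR, order_bR]
  rfl

lemma ord_zpow_dvd {H : Type} [Group H] (b : H) (j : ℤ) : orderOf (b ^ j) ∣ orderOf b := by
  apply orderOf_dvd_of_pow_eq_one
  rw [← zpow_natCast, ← zpow_mul, mul_comm, zpow_mul, zpow_natCast, pow_orderOf_eq_one, one_zpow]

lemma ss_xx (p : ℕ) (hp : p.Prime) (hpx : p ∣ orderOf xx) (y : GG) (hy : IsPPart p xx y) :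
    SS p y := by
  obtain ⟨hy1, ⟨k, hk⟩, -⟩ := hy
  obtain ⟨j, hj⟩ := mem_zpowers_iff.1 hy1
  have hyj : y = SemidirectProduct.inl (aR ^ j, bR ^ j) := by
    rw [← hj]
    unfold xx
    rw [← map_zpow]
    rfl
  have hord : orderOf y = Nat.lcm (orderOf (aR ^ j)) (orderOf (bR ^ j)) := by
    rw [hyj, orderOf_injective _ SemidirectProduct.inl_injective, Prod.orderOf_mk]
  have ha : orderOf (aR ^ j) ∣ 2 := (ord_zpow_dvd aR j).trans (dvd_of_eq order_aR)
  have hb : orderOf (bR ^ j) ∣ 3 := (ord_zpow_dvd bR j).trans (dvd_of_eq order_bR)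
  have ha' : orderOf (aR ^ j) ∣ p ^ k := by
    rw [← hk, hord]; exact Nat.dvd_lcm_left _ _
  have hb' : orderOf (bR ^ j) ∣ p ^ k := by
    rw [← hk, hord]; exact Nat.dvd_lcm_right _ _
  rw [order_xx] at hpx
  apply ss_of_top
  have hp6 : p = 2 ∨ p = 3 := by
    have h6 : (6 : ℕ) = 2 * 3 := rfl
    rw [h6, hp.dvd_mul] at hpx
    rcases hpx with h | h
    · left; exact (Nat.prime_dvd_prime_iff_eq hp Nat.prime_two).1 h
    · right; exact (Nat.prime_dvd_prime_iff_eq hp Nat.prime_three).1 h
  rcases hp6 with rfl | rfl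
  · have hb1 : bR ^ j = 1 := by
      rw [← orderOf_eq_one_iff]
      apply Nat.eq_one_of_dvd_coprimes (a := 3) (b := 2 ^ k) _ hb hb'
      exact Nat.Coprime.pow_right k (by norm_num)
    rw [hyj, hb1]
    exact sub_left _
  · have ha1 : aR ^ j = 1 := by
      rw [← orderOf_eq_one_iff]
      apply Nat.eq_one_of_dvd_coprimes (a := 2) (b := 3 ^ k) _ ha ha'
      exact Nat.Coprime.pow_right k (by norm_num)
    rw [hyj, ha1]
    exact sub_right _

/-! ### The subnormalizer of `x` -/

lemma x3_eq : (SemidirectProduct.inl (aR, 1) : GG) = xx ^ 3 := by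
  unfold xx
  rw [← map_pow]
  congr 1
  refine Prod.ext ?_ ?_
  · show aR = aR ^ 3
    rw [pow_succ, show aR ^ 2 = 1 from Prod.ext sP2 (one_pow _), one_mul]
  · show (1 : R) = bR ^ 3
    exact (show bR ^ 3 = 1 from Prod.ext rP3 (one_pow _)).symm

lemma x4_eq : (SemidirectProduct.inl (1, bR) : GG) = xx ^ 4 := by
  unfold xx
  rw [← map_pow]
  congr 1
  refine Prod.ext ?_ ?_
  · show (1 : R) = aR ^ 4
    rw [show (4 : ℕ) = 2 * 2 from rfl, pow_mul, show aR ^ 2 = 1 from Prod.ext sP2 (one_pow _),
      one_pow]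
  · show bR = bR ^ 4
    rw [pow_succ, show bR ^ 3 = 1 from Prod.ext rP3 (one_pow _), one_mul]

lemma set_sub {g : GG} (hg : g ∈ subnormalizerSet xx) :
    g.right = 1 ∧ g.left.1.1 * sP = sP * g.left.1.1 := by
  have hxg : xx ∈ closure {xx, g} := Subgroup.subset_closure (Or.inl rfl)
  have hgg : g ∈ closure {xx, g} := Subgroup.subset_closure (Or.inr rfl)
  have hu : (SemidirectProduct.inl (aR, 1) : GG) ∈ zpowers xx := by
    rw [x3_eq]; exact npow_mem_zpowers xx 3
  have hu' : (SemidirectProduct.inl (aR, 1) : GG) ∈ closure {xx, g} := by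
    rw [x3_eq]; exact pow_mem hxg 3
  have hv' : (SemidirectProduct.inl (1, bR) : GG) ∈ closure {xx, g} := by
    rw [x4_eq]; exact pow_mem hxg 4
  have hg' : g = SemidirectProduct.inl g.left * SemidirectProduct.inr g.right :=
    (SemidirectProduct.inl_left_mul_inr_right g).symm
  obtain ⟨⟨c, d⟩, t⟩ := g
  show t = 1 ∧ c.1 * sP = sP * c.1
  have hg'' : (⟨(c, d), t⟩ : GG) = SemidirectProduct.inl (c, d) * SemidirectProduct.inr t := hg'
  rcases Int.units_eq_one_or t with ht | ht
  · refine ⟨ht, ?_⟩
    by_contra hne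
    obtain ⟨h1, h2, h3⟩ := p5 c.1 hne
    rw [ht, map_one, mul_one] at hg''
    have hc : (⟨(c, d), t⟩ : GG) * SemidirectProduct.inl (aR, 1) * (⟨(c, d), t⟩ : GG)⁻¹ =
        SemidirectProduct.inl (c * aR * c⁻¹, 1) := by
      rw [ht, hg'', ← map_mul, ← map_inv, ← map_mul]
      congr 1
      refine Prod.ext rfl ?_
      show d * 1 * d⁻¹ = 1
      group
    have hv : (SemidirectProduct.inl (aR * (c * aR * c⁻¹), 1) : GG) ∈
        closure {xx, (⟨(c, d), t⟩ : GG)} := by
      have : (SemidirectProduct.inl (aR * (c * aR * c⁻¹), 1) : GG) =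
          SemidirectProduct.inl (aR, 1) * SemidirectProduct.inl (c * aR * c⁻¹, 1) := by
        rw [← map_mul]
        rfl
      rw [this, ← hc]
      exact mul_mem hu' (mul_mem (mul_mem hgg hu') (inv_mem hgg))
    have h4 : aR * (aR * (c * aR * c⁻¹)) * aR⁻¹ = (aR * (c * aR * c⁻¹))⁻¹ := by
      refine Prod.ext h2 ?_
      show (1 : ℤˣ) * (1 * (c.2 * 1 * c.2⁻¹)) * 1⁻¹ = (1 * (c.2 * 1 * c.2⁻¹))⁻¹
      simp
    have h5 : (aR * (c * aR * c⁻¹)) ^ 3 = 1 := by
      refine Prod.ext h1 ?_
      show ((1 : ℤˣ) * (c.2 * 1 * c.2⁻¹)) ^ 3 = 1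
      simp
    have h6 := no_invert hg hu hv (by
      rw [← map_mul, ← map_inv, ← map_mul, ← map_inv]
      congr 1
      refine Prod.ext h4 ?_
      show (1 : R) * 1 * 1⁻¹ = 1⁻¹
      group) (by
      rw [← map_pow]
      have : ((aR * (c * aR * c⁻¹), 1) : R × R) ^ 3 = 1 := Prod.ext h5 (one_pow _)
      rw [this, map_one])
    have h7 : ((aR * (c * aR * c⁻¹), 1) : R × R) = 1 := by
      apply SemidirectProduct.inl_injective (φ := swapHom)
      rw [h6, map_one]
    exact h3 (congrArg (fun q : R × R => q.1.1) h7)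
  · exfalso
    obtain ⟨h1, h2, h3⟩ := p6 c.1
    have hc : (⟨(c, d), t⟩ : GG) * SemidirectProduct.inl (1, bR) * (⟨(c, d), t⟩ : GG)⁻¹ =
        SemidirectProduct.inl (c * bR * c⁻¹, 1) := by
      rw [hg'', ht]
      have : (SemidirectProduct.inl (c, d) : GG) * SemidirectProduct.inr (-1) *
          SemidirectProduct.inl (1, bR) * (SemidirectProduct.inl (c, d) *
            SemidirectProduct.inr (-1))⁻¹ =
          SemidirectProduct.inl (c, d) * (sw * SemidirectProduct.inl (1, bR) * sw⁻¹) *
            (SemidirectProduct.inl (c, d))⁻¹ := by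
        unfold sw
        group
      rw [this, sw_conj, ← map_mul, ← map_inv, ← map_mul]
      congr 1
      refine Prod.ext rfl ?_
      show d * 1 * d⁻¹ = 1
      group
    have hv : (SemidirectProduct.inl (c * bR * c⁻¹, 1) : GG) ∈
        closure {xx, (⟨(c, d), t⟩ : GG)} := by
      rw [← hc]
      exact mul_mem (mul_mem hgg hv') (inv_mem hgg)
    have h4 : aR * (c * bR * c⁻¹) * aR⁻¹ = (c * bR * c⁻¹)⁻¹ := by
      refine Prod.ext h2 ?_
      show (1 : ℤˣ) * (c.2 * 1 * c.2⁻¹) * 1⁻¹ = (c.2 * 1 * c.2⁻¹)⁻¹
      simp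
    have h5 : (c * bR * c⁻¹) ^ 3 = 1 := by
      refine Prod.ext h1 ?_
      show (c.2 * 1 * c.2⁻¹) ^ 3 = 1
      simp
    have h6 := no_invert hg hu hv (by
      rw [← map_mul, ← map_inv, ← map_mul, ← map_inv]
      congr 1
      refine Prod.ext h4 ?_
      show (1 : R) * 1 * 1⁻¹ = 1⁻¹
      group) (by
      rw [← map_pow]
      have : ((c * bR * c⁻¹, 1) : R × R) ^ 3 = 1 := Prod.ext h5 (one_pow _)
      rw [this, map_one])
    have h7 : ((c * bR * c⁻¹, 1) : R × R) = 1 := by
      apply SemidirectProduct.inl_injective (φ := swapHom)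
      rw [h6, map_one]
    exact h3 (congrArg (fun q : R × R => q.1.1) h7)

/-- The elements of the subnormalizer of `x`. -/
lemma sub_xx {g : GG} (hg : g ∈ subnormalizer xx) :
    ∃ c d : R, g = SemidirectProduct.inl (c, d) ∧ c.1 * sP = sP * c.1 := by
  induction hg using closure_induction with
  | mem g hg =>
    obtain ⟨h1, h2⟩ := set_sub hg
    refine ⟨g.left.1, g.left.2, ?_, h2⟩
    have hg' : g = SemidirectProduct.inl g.left * SemidirectProduct.inr g.right :=
      (SemidirectProduct.inl_left_mul_inr_right g).symm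
    rw [h1, map_one, mul_one] at hg'
    exact hg'
  | one => exact ⟨1, 1, (map_one _).symm, by rw [Prod.fst_one, one_mul, mul_one]⟩
  | mul a b _ _ ha hb =>
    obtain ⟨c, d, rfl, h⟩ := ha
    obtain ⟨c', d', rfl, h'⟩ := hb
    refine ⟨c * c', d * d', (map_mul _ _ _).symm, ?_⟩
    rw [Prod.fst_mul, mul_assoc, h', ← mul_assoc, h, mul_assoc]
  | inv a _ ha =>
    obtain ⟨c, d, rfl, h⟩ := ha
    refine ⟨c⁻¹, d⁻¹, (map_inv _ _).symm, ?_⟩
    rw [Prod.fst_inv]
    have : c.1⁻¹ * (c.1 * sP) * c.1⁻¹ = c.1⁻¹ * (sP * c.1) * c.1⁻¹ := by rw [h]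
    simp only [inv_mul_cancel_left, mul_assoc, mul_inv_cancel, mul_one] at this
    exact this.symm

/-! ### The two-dimensional representation -/

/-- The sign as a complex number. -/
def sg (u : ℤˣ) : ℂ := ((u : ℤ) : ℂ)

lemma sg_mul (u v : ℤˣ) : sg (u * v) = sg u * sg v := by
  unfold sg
  push_cast
  rfl

lemma sg_one : sg 1 = 1 := by
  unfold sg
  norm_num

lemma sg_neg : sg (-1) = -1 := by
  unfold sg
  norm_num

/-- The action of an element on `ℂ²`. -/
noncomputable def act (g : GG) : (Fin 2 → ℂ) →ₗ[ℂ] (Fin 2 → ℂ) where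
  toFun v := if g.right = 1 then ![sg g.left.1.2 * v 0, sg g.left.2.2 * v 1]
    else ![sg g.left.1.2 * v 1, sg g.left.2.2 * v 0]
  map_add' v w := by
    split_ifs
    · ext i; fin_cases i <;> simp [mul_add]
    · ext i; fin_cases i <;> simp [mul_add]
  map_smul' a v := by
    split_ifs
    · ext i; fin_cases i <;> simp <;> ring
    · ext i; fin_cases i <;> simp <;> ring

lemma act_inl (c d : R) (v : Fin 2 → ℂ) :
    act (SemidirectProduct.inl (c, d)) v = ![sg c.2 * v 0, sg d.2 * v 1] := by
  show (if (1 : ℤˣ) = 1 then (![sg c.2 * v 0, sg d.2 * v 1] : Fin 2 → ℂ) else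
    ![sg c.2 * v 1, sg d.2 * v 0]) = _
  rw [if_pos rfl]

lemma act_pos (p : R × R) (v : Fin 2 → ℂ) :
    act (⟨p, 1⟩ : GG) v = ![sg p.1.2 * v 0, sg p.2.2 * v 1] := by
  show (if (1 : ℤˣ) = 1 then (![sg p.1.2 * v 0, sg p.2.2 * v 1] : Fin 2 → ℂ) else
    ![sg p.1.2 * v 1, sg p.2.2 * v 0]) = _
  rw [if_pos rfl]

lemma act_neg (p : R × R) (v : Fin 2 → ℂ) :
    act (⟨p, -1⟩ : GG) v = ![sg p.1.2 * v 1, sg p.2.2 * v 0] := by
  show (if (-1 : ℤˣ) = 1 then (![sg p.1.2 * v 0, sg p.2.2 * v 1] : Fin 2 → ℂ) else
    ![sg p.1.2 * v 1, sg p.2.2 * v 0]) = _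
  rw [if_neg (by decide)]

lemma act_mul (g h : GG) : act (g * h) = act g * act h := by
  obtain ⟨⟨c, d⟩, t⟩ := g
  obtain ⟨⟨c', d'⟩, t'⟩ := h
  refine LinearMap.ext fun v => ?_
  rw [Module.End.mul_apply]
  rcases Int.units_eq_one_or t with rfl | rfl <;> rcases Int.units_eq_one_or t' with rfl | rfl
  · have : (⟨(c, d), 1⟩ : GG) * ⟨(c', d'), 1⟩ = ⟨(c * c', d * d'), 1⟩ := rfl
    rw [this, act_pos, act_pos, act_pos]
    ext i; fin_cases i <;> simp [sg_mul, mul_assoc]
  · have : (⟨(c, d), 1⟩ : GG) * ⟨(c', d'), -1⟩ = ⟨(c * c', d * d'), -1⟩ := rfl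
    rw [this, act_neg, act_pos, act_neg]
    ext i; fin_cases i <;> simp [sg_mul, mul_assoc]
  · have : (⟨(c, d), -1⟩ : GG) * ⟨(c', d'), 1⟩ = ⟨(c * d', d * c'), -1⟩ := rfl
    rw [this, act_neg, act_neg, act_pos]
    ext i; fin_cases i <;> simp [sg_mul, mul_assoc]
  · have : (⟨(c, d), -1⟩ : GG) * ⟨(c', d'), -1⟩ = ⟨(c * d', d * c'), 1⟩ := rfl
    rw [this, act_pos, act_neg, act_neg]
    ext i; fin_cases i <;> simp [sg_mul, mul_assoc]

lemma act_one : act 1 = 1 := by
  refine LinearMap.ext fun v => ?_
  have : (1 : GG) = ⟨(1, 1), 1⟩ := rfl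
  rw [this, act_pos, Module.End.one_apply]
  ext i; fin_cases i <;> simp [sg_one]

/-- The two-dimensional representation. -/
noncomputable def rep : Representation ℂ GG (Fin 2 → ℂ) where
  toFun := act
  map_one' := act_one
  map_mul' := act_mul

lemma rep_irr : rep.IsIrreducible := by
  have key : ∀ S : Subrepresentation rep, ∀ v ∈ S.toSubmodule, v ≠ 0 → S.toSubmodule = ⊤ := by
    intro S v hv hv0
    -- the swap
    have hsw : ∀ w ∈ S.toSubmodule, ![w 1, w 0] ∈ S.toSubmodule := by
      intro w hw
      have h := S.apply_mem_toSubmodule (⟨(1, 1), -1⟩ : GG) hw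
      have h' : act (⟨(1, 1), -1⟩ : GG) w = ![w 1, w 0] := by
        rw [act_neg]
        ext i; fin_cases i <;> simp [sg_one]
      rw [← h']
      exact h
    -- the projection
    have hpr : ∀ w ∈ S.toSubmodule, ![w 0, 0] ∈ S.toSubmodule := by
      intro w hw
      have h := S.apply_mem_toSubmodule (SemidirectProduct.inl (1, (1, -1)) : GG) hw
      have h' : act (SemidirectProduct.inl (1, (1, -1)) : GG) w = ![w 0, - w 1] := by
        rw [act_inl]
        ext i; fin_cases i <;> simp [sg_one, sg_neg]
      have h2 : (![w 0, - w 1] : Fin 2 → ℂ) ∈ S.toSubmodule := by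
        rw [← h']
        exact h
      have h3 := S.toSubmodule.smul_mem (1 / 2 : ℂ) (S.toSubmodule.add_mem hw h2)
      have h4 : (1 / 2 : ℂ) • (w + ![w 0, - w 1]) = ![w 0, 0] := by
        ext i; fin_cases i
        · show (1 / 2 : ℂ) * (w 0 + w 0) = w 0
          ring
        · show (1 / 2 : ℂ) * (w 1 + - w 1) = 0
          ring
      rw [h4] at h3
      exact h3
    have he0 : (![1, 0] : Fin 2 → ℂ) ∈ S.toSubmodule := by
      have hcase : ∃ w ∈ S.toSubmodule, w 0 ≠ 0 := by
        by_cases h0 : v 0 = 0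
        · refine ⟨_, hsw v hv, ?_⟩
          show v 1 ≠ 0
          intro h1
          apply hv0
          ext i; fin_cases i
          · exact h0
          · exact h1
        · exact ⟨v, hv, h0⟩
      obtain ⟨w, hw, hw0⟩ := hcase
      have h3 := S.toSubmodule.smul_mem (w 0)⁻¹ (hpr w hw)
      have h4 : (w 0)⁻¹ • (![w 0, 0] : Fin 2 → ℂ) = ![1, 0] := by
        ext i; fin_cases i <;> simp [hw0]
      rw [h4] at h3
      exact h3
    have he1 : (![0, 1] : Fin 2 → ℂ) ∈ S.toSubmodule := hsw _ he0
    rw [eq_top_iff]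
    rintro w -
    have : w = w 0 • (![1, 0] : Fin 2 → ℂ) + w 1 • ![0, 1] := by
      ext i; fin_cases i <;> simp
    rw [this]
    exact S.toSubmodule.add_mem (S.toSubmodule.smul_mem _ he0) (S.toSubmodule.smul_mem _ he1)
  have hne : (⊥ : Subrepresentation rep) ≠ ⊤ := by
    intro h
    have h1 : (⊥ : Submodule ℂ (Fin 2 → ℂ)) = ⊤ :=
      congrArg (fun S : Subrepresentation rep => S.toSubmodule) h
    exact bot_ne_top h1
  exact { exists_pair_ne := ⟨_, _, hne⟩
          eq_bot_or_eq_top := by
            intro S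
            by_cases h : S.toSubmodule = ⊥
            · left
              apply Subrepresentation.toSubmodule_injective
              exact h
            · right
              apply Subrepresentation.toSubmodule_injective
              obtain ⟨v, hv, hv0⟩ := Submodule.exists_mem_ne_zero_of_ne_bot h
              exact key S v hv hv0 }

lemma rep_xx : rep.character xx = 2 := by
  unfold Representation.character
  have : rep xx = 1 := by
    refine LinearMap.ext fun v => ?_
    show act (SemidirectProduct.inl (aR, bR)) v = v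
    rw [act_inl]
    ext i; fin_cases i <;> simp [aR, bR, sg_one]
  rw [this, LinearMap.trace_one]
  simp

/-- The counterexample: `G` has order `288`, `x` has order `6`, property (SS) holds for all primary
parts of `x`, and there is no bijection `f : Irr^x(G) → Irr^x(Sub_G(x))` with `f(χ)(x) = ±χ(x)`. -/
theorem main : ∃ (G : Type) (_ : Group G) (x : G), Nat.card G = 288 ∧ orderOf x = 6 ∧
    (∀ p : ℕ, p.Prime → p ∣ orderOf x → ∀ y : G, IsPPart p x y → SS p y) ∧
    ¬ ∃ f : (G → ℂ) → (subnormalizer x → ℂ), IsSignBijection x f := by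
  refine ⟨GG, inferInstance, xx, card_GG, order_xx, ss_xx, ?_⟩
  rintro ⟨f, hbij, hf⟩
  have h2 : (2 : ℂ) ≠ 0 := by norm_num
  have hirr : IsIrrChar rep.character := ⟨2, rep, rep_irr, rfl⟩
  have hne : rep.character xx ≠ 0 := by rw [rep_xx]; exact h2
  have hmem : rep.character ∈ IrrAt xx := ⟨hirr, hne⟩
  have hψ : f rep.character (self xx) = 2 ∨ f rep.character (self xx) = -2 := by
    rcases hf _ hmem with h | h
    · left
      rw [h, rep_xx]
    · right
      rw [h, rep_xx]
  obtain ⟨n, ρ, hρ, hch⟩ := (hbij.mapsTo hmem).1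
  rw [← hch] at hψ
  have hzm : (SemidirectProduct.inl (aR, 1) : GG) ∈ subnormalizer xx := by
    rw [x3_eq]; exact pow_mem (self_mem xx) 3
  have hvm : (SemidirectProduct.inl (1, bR) : GG) ∈ subnormalizer xx := by
    rw [x4_eq]; exact pow_mem (self_mem xx) 4
  have hself : self xx = (⟨_, hzm⟩ : subnormalizer xx) * ⟨_, hvm⟩ := by
    apply Subtype.ext
    show xx = SemidirectProduct.inl (aR, 1) * SemidirectProduct.inl (1, bR)
    rw [← map_mul]
    rfl
  have hmain := trace_ne hρ (⟨_, hzm⟩ : subnormalizer xx) ⟨_, hvm⟩ ?_ ?_ ?_ ?_ ?_ ?_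
  · rw [← hself] at hmain
    rcases hψ with h | h
    · exact hmain.1 h
    · exact hmain.2 h
  · -- `z` is central
    rintro ⟨g, hg⟩
    obtain ⟨c, d, rfl, h⟩ := sub_xx hg
    apply Subtype.ext
    show (SemidirectProduct.inl (aR, 1) : GG) * SemidirectProduct.inl (c, d) =
      SemidirectProduct.inl (c, d) * SemidirectProduct.inl (aR, 1)
    rw [← map_mul, ← map_mul]
    congr 1
    refine Prod.ext (Prod.ext h.symm (mul_comm _ _)) ?_
    show 1 * d = d * 1
    rw [one_mul, mul_one]
  · -- `z² = 1`
    apply Subtype.ext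
    show (SemidirectProduct.inl (aR, 1) : GG) * SemidirectProduct.inl (aR, 1) = 1
    rw [← map_mul]
    have : ((aR, 1) : R × R) * (aR, 1) = 1 := by
      refine Prod.ext (Prod.ext ?_ (mul_one _)) (mul_one _)
      show sP * sP = 1
      rw [← pow_two, sP2]
    rw [this, map_one]
  · -- `v³ = 1`
    apply Subtype.ext
    show (SemidirectProduct.inl (1, bR) : GG) ^ 3 = 1
    rw [← map_pow]
    have : ((1, bR) : R × R) ^ 3 = 1 := Prod.ext (one_pow _) (Prod.ext rP3 (one_pow _))
    rw [this, map_one]
  · -- commutators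
    rintro ⟨g, hg⟩ ⟨g', hg'⟩
    obtain ⟨c, d, rfl, h⟩ := sub_xx hg
    obtain ⟨c', d', rfl, h'⟩ := sub_xx hg'
    obtain ⟨i, hi⟩ := p2 d.1 d'.1
    refine ⟨i, Subtype.ext ?_⟩
    show (SemidirectProduct.inl (c, d) : GG) * SemidirectProduct.inl (c', d') =
      SemidirectProduct.inl (c', d') * SemidirectProduct.inl (c, d) *
        SemidirectProduct.inl (1, bR) ^ (i : ℕ)
    rw [← map_pow, ← map_mul, ← map_mul, ← map_mul]
    congr 1
    refine Prod.ext (Prod.ext ?_ ?_) (Prod.ext ?_ ?_)
    · show c.1 * c'.1 = c'.1 * c.1 * (1 : Equiv.Perm (Fin 3)) ^ (i : ℕ)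
      rw [one_pow, mul_one, p1 _ _ h h']
    · show c.2 * c'.2 = c'.2 * c.2 * (1 : ℤˣ) ^ (i : ℕ)
      rw [one_pow, mul_one, mul_comm]
    · exact hi
    · show d.2 * d'.2 = d'.2 * d.2 * (1 : ℤˣ) ^ (i : ℕ)
      rw [one_pow, mul_one, mul_comm]
  · -- every element centralizes or inverts `v`
    rintro ⟨g, hg⟩
    obtain ⟨c, d, rfl, h⟩ := sub_xx hg
    rcases p3 d.1 with h1 | h1
    · left
      apply Subtype.ext
      show (SemidirectProduct.inl (c, d) : GG) * SemidirectProduct.inl (1, bR) =
        SemidirectProduct.inl (1, bR) * SemidirectProduct.inl (c, d)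
      rw [← map_mul, ← map_mul]
      congr 1
      refine Prod.ext ?_ (Prod.ext h1 (mul_comm _ _))
      show c * 1 = 1 * c
      rw [one_mul, mul_one]
    · right
      apply Subtype.ext
      show (SemidirectProduct.inl (c, d) : GG) * SemidirectProduct.inl (1, bR) =
        (SemidirectProduct.inl (1, bR))⁻¹ * SemidirectProduct.inl (c, d)
      rw [← map_inv, ← map_mul, ← map_mul]
      congr 1
      refine Prod.ext ?_ (Prod.ext h1 ?_)
      · show c * 1 = 1⁻¹ * c
        rw [inv_one, one_mul, mul_one]
      · show d.2 * 1 = 1⁻¹ * d.2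
        rw [inv_one, one_mul, mul_one]
  · -- elements centralizing `v` are central up to powers of `v`
    rintro ⟨g, hg⟩ hgv
    obtain ⟨c, d, rfl, h⟩ := sub_xx hg
    have hgv' : (SemidirectProduct.inl (c, d) : GG) * SemidirectProduct.inl (1, bR) =
        SemidirectProduct.inl (1, bR) * SemidirectProduct.inl (c, d) :=
      congrArg Subtype.val hgv
    rw [← map_mul, ← map_mul] at hgv'
    have hd : d.1 * rP = rP * d.1 :=
      congrArg (fun q : R × R => q.2.1) (SemidirectProduct.inl_injective (φ := swapHom) hgv')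
    obtain ⟨i, hi⟩ := p4 d.1 hd
    refine ⟨i, ?_⟩
    rintro ⟨g', hg'⟩
    obtain ⟨c', d', rfl, h'⟩ := sub_xx hg'
    apply Subtype.ext
    show (SemidirectProduct.inl (c, d) : GG) * SemidirectProduct.inl (1, bR) ^ (i : ℕ) *
        SemidirectProduct.inl (c', d') = SemidirectProduct.inl (c', d') *
          (SemidirectProduct.inl (c, d) * SemidirectProduct.inl (1, bR) ^ (i : ℕ))
    rw [← map_pow, ← map_mul, ← map_mul, ← map_mul]
    congr 1
    refine Prod.ext (Prod.ext ?_ ?_) (Prod.ext ?_ ?_)
    · show c.1 * (1 : Equiv.Perm (Fin 3)) ^ (i : ℕ) * c'.1 =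
        c'.1 * (c.1 * (1 : Equiv.Perm (Fin 3)) ^ (i : ℕ))
      rw [one_pow, mul_one, p1 _ _ h h']
    · exact mul_comm _ _
    · show d.1 * rP ^ (i : ℕ) * d'.1 = d'.1 * (d.1 * rP ^ (i : ℕ))
      rw [hi, one_mul, mul_one]
    · exact mul_comm _ _

end Concrete

end Pool.Agent.MP3a6623
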